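import Pool.Agent.W2helper77.CS.Stm

/-!
# Numerical bounds: sums of square roots against the quarter disc
-/

set_option autoImplicit false

namespace Pool.Agent.W2helper59.CS

open Real Finset Pool.Agent.W2helper77.CS

/-- the quarter disc -/
lemma quarter : ∫ x in (0 : ℝ)..1, √(1 - x ^ 2) = π / 4 := by
  have h1 := integral_sqrt_one_sub_sq
  have hc : Continuous fun x : ℝ => √(1 - x ^ 2) := by fun_prop
  have h2 : ∫ x in (-1 : ℝ)..0, √(1 - x ^ 2) = ∫ x in (0 : ℝ)..1, √(1 - x ^ 2) := by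
    have := intervalIntegral.integral_comp_neg (a := (0 : ℝ)) (b := 1)
      (fun x : ℝ => √(1 - x ^ 2))
    simp only [even_two, Even.neg_pow, neg_zero] at this
    exact this.symm
  have h3 := intervalIntegral.integral_add_adjacent_intervals
    (hc.intervalIntegrable (-1) 0) (hc.intervalIntegrable 0 1) (μ := MeasureTheory.volume)
  rw [h1, h2] at h3
  linarith

lemma anti (w : ℝ) (c d : ℝ) (hc : 0 ≤ c) (hd : 0 ≤ d) (b : ℝ) :
    AntitoneOn (fun t : ℝ => √(w ^ 2 - (c * t + d) ^ 2)) (Set.Icc 0 b) := by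
  intro s hs t ht hst
  apply Real.sqrt_le_sqrt
  have h1 : 0 ≤ c * s + d := add_nonneg (mul_nonneg hc hs.1) hd
  have h2 : c * s + d ≤ c * t + d := by
    have := mul_le_mul_of_nonneg_left hst hc
    linarith
  have := pow_le_pow_left₀ h1 h2 2
  linarith

lemma scale (w : ℝ) (hw : 0 < w) (c d b : ℝ) (hc : 0 < c) :
    ∫ t in (0 : ℝ)..b, √(w ^ 2 - (c * t + d) ^ 2) =
      w ^ 2 / c * ∫ x in (d / w)..((c * b + d) / w), √(1 - x ^ 2) := by
  have h1 : ∀ t : ℝ, √(w ^ 2 - (c * t + d) ^ 2) =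
      w * √(1 - (c / w * t + d / w) ^ 2) := by
    intro t
    have : w ^ 2 - (c * t + d) ^ 2 = w ^ 2 * (1 - (c / w * t + d / w) ^ 2) := by
      field_simp
    rw [this, Real.sqrt_mul (sq_nonneg w), Real.sqrt_sq hw.le]
  simp_rw [h1]
  rw [intervalIntegral.integral_const_mul]
  rw [intervalIntegral.integral_comp_mul_add (fun x : ℝ => √(1 - x ^ 2))
    (div_ne_zero hc.ne' hw.ne') (d / w)]
  have e1 : c / w * 0 + d / w = d / w := by ring
  have e2 : c / w * b + d / w = (c * b + d) / w := by ring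
  rw [e1, e2, smul_eq_mul]
  field_simp

lemma term (j : ℕ) : π / 4 * (2 * (j : ℝ) + 1) - 1 ≤ 2 / (2 * (j : ℝ) + 1) *
    ∑ k ∈ Finset.range j, √((2 * (j : ℝ) + 1) ^ 2 - (2 * (k : ℝ) + 1) ^ 2) := by
  set w : ℝ := 2 * (j : ℝ) + 1 with hw
  have hj : (0 : ℝ) ≤ j := Nat.cast_nonneg j
  have hw1 : 1 ≤ w := by rw [hw]; linarith
  have hw0 : 0 < w := by linarith
  have h1 : ∫ t in (0 : ℝ)..(0 + (j : ℝ)), √(w ^ 2 - (2 * t + 1) ^ 2) ≤
      ∑ k ∈ Finset.range j, √(w ^ 2 - (2 * (0 + (k : ℝ)) + 1) ^ 2) := by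
    have := AntitoneOn.integral_le_sum (x₀ := 0) (a := j)
      (f := fun t : ℝ => √(w ^ 2 - (2 * t + 1) ^ 2))
      (anti w 2 1 (by norm_num) (by norm_num) _)
    exact this
  rw [scale w hw0 2 1 _ (by norm_num)] at h1
  have e1 : (2 * (0 + (j : ℝ)) + 1) / w = 1 := by
    rw [zero_add, ← hw]
    exact div_self hw0.ne'
  rw [e1] at h1
  simp only [zero_add] at h1
  have hc : Continuous fun x : ℝ => √(1 - x ^ 2) := by fun_prop
  have h3 := intervalIntegral.integral_add_adjacent_intervals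
    (hc.intervalIntegrable 0 (1 / w)) (hc.intervalIntegrable (1 / w) 1)
    (μ := MeasureTheory.volume)
  rw [quarter] at h3
  have h4 : ∫ x in (0 : ℝ)..(1 / w), √(1 - x ^ 2) ≤ 1 / w := by
    have h5 : ∫ x in (0 : ℝ)..(1 / w), √(1 - x ^ 2) ≤ ∫ x in (0 : ℝ)..(1 / w), (1 : ℝ) := by
      apply intervalIntegral.integral_mono_on (by positivity) (hc.intervalIntegrable _ _)
        (continuous_const.intervalIntegrable _ _)
      intro x _
      rw [Real.sqrt_le_left (by norm_num)]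
      nlinarith [sq_nonneg x]
    simpa using h5
  have h6 : π / 4 - 1 / w ≤ ∫ x in (1 / w)..1, √(1 - x ^ 2) := by linarith
  have h7 : w ^ 2 / 2 * (π / 4 - 1 / w) ≤
      ∑ k ∈ Finset.range j, √(w ^ 2 - (2 * (k : ℝ) + 1) ^ 2) :=
    (mul_le_mul_of_nonneg_left h6 (by positivity)).trans h1
  have h8 := mul_le_mul_of_nonneg_left h7 (show 0 ≤ 2 / w by positivity)
  refine le_trans (le_of_eq ?_) h8
  field_simp

lemma sum_odd (m : ℕ) : ∑ j ∈ Finset.range m, (2 * (j : ℝ) + 1) = (m : ℝ) ^ 2 := by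
  induction m with
  | zero => simp
  | succ m ih => rw [Finset.sum_range_succ, ih]; push_cast; ring

theorem num : S_NUM := by
  refine ⟨?_, ?_⟩
  · intro m
    have h1 : ∑ j ∈ Finset.range m, (π / 4 * (2 * (j : ℝ) + 1) - 1) ≤ B m :=
      Finset.sum_le_sum fun j _ => term j
    rw [Finset.sum_sub_distrib, ← Finset.mul_sum, sum_odd] at h1
    simpa using h1
  · intro m
    rcases Nat.eq_zero_or_pos m with rfl | hm
    · simp
    have hm0 : (0 : ℝ) < m := Nat.cast_pos.2 hm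
    have h1 : ∑ i ∈ Finset.range m, √((m : ℝ) ^ 2 - (1 * (0 + ((i + 1 : ℕ) : ℝ)) + 0) ^ 2) ≤
        ∫ t in (0 : ℝ)..(0 + (m : ℝ)), √((m : ℝ) ^ 2 - (1 * t + 0) ^ 2) := by
      have := AntitoneOn.sum_le_integral (x₀ := 0) (a := m)
        (f := fun t : ℝ => √((m : ℝ) ^ 2 - (1 * t + 0) ^ 2))
        (anti m 1 0 (by norm_num) (by norm_num) _)
      exact this
    rw [scale m hm0 1 0 _ (by norm_num)] at h1
    have e1 : (1 * (0 + (m : ℝ)) + 0) / m = 1 := by
      field_simp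
      ring
    rw [e1, zero_div, quarter] at h1
    simp only [zero_add, one_mul, add_zero, div_one] at h1
    have h2 := Finset.sum_range_succ' (fun i : ℕ => √((m : ℝ) ^ 2 - (i : ℝ) ^ 2)) m
    rw [Finset.sum_range_succ] at h2
    simp only [sub_self, Real.sqrt_zero, add_zero, Nat.cast_zero, ne_eq, OfNat.ofNat_ne_zero,
      not_false_eq_true, zero_pow, sub_zero, Real.sqrt_sq hm0.le] at h2
    rw [h2]
    linarith

end Pool.Agent.W2helper59.CS
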